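import Mathlib

/-!
# An everywhere divergent trigonometric series with coefficients arbitrarily close to `ℓ²`

On the block `4^k ≤ n < 3 * 4^k` the `n`-th term is `2^(-k) cos (π n² / 4^k + n x)`. Whatever `x` is,
the phase is stationary somewhere in the block, and a window of about `2^k` consecutive terms there
are all at least `2^(-k) / 2`.
-/

open Filter Topology Finset

namespace Pool.Agent.Results.MP_85199e_an.EverywhereDivergent

/-- Partial sums of the trigonometric series with coefficients `a`, `b` (from `n = 1`). -/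
noncomputable def partialSum (a b : ℕ → ℝ) (x : ℝ) (N : ℕ) : ℝ :=
  ∑ n ∈ Finset.Icc 1 N, (a n * Real.cos (n * x) + b n * Real.sin (n * x))

/-- The series diverges everywhere: at no real `x` do the partial sums have a finite limit. -/
def DivergesEverywhere (a b : ℕ → ℝ) : Prop :=
  ∀ x : ℝ, ¬ ∃ l : ℝ, Tendsto (partialSum a b x) atTop (𝓝 l)

lemma sum_block {e : ℕ → ℝ} (M : ℕ) :
    ∑ n ∈ range (4 ^ M), e (Nat.log 4 n) / 4 ^ (Nat.log 4 n) = e 0 + 3 * ∑ K ∈ range M, e K := by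
  induction M with
  | zero => simp
  | succ M ih =>
    rw [Finset.sum_range_succ, mul_add, ← add_assoc, ← ih, Finset.range_eq_Ico,
      ← Finset.sum_Ico_consecutive _ (Nat.zero_le (4 ^ M))
        (Nat.pow_le_pow_right (by norm_num) (Nat.le_succ M))]
    congr 1
    · rw [Finset.range_eq_Ico]
    have h : ∀ n ∈ Ico (4 ^ M) (4 ^ (M + 1)), e (Nat.log 4 n) / 4 ^ (Nat.log 4 n) =
        e M / 4 ^ M := by
      intro n hn
      rw [Finset.mem_Ico] at hn
      rw [(Nat.log_eq_iff (Or.inr ⟨by norm_num, by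
        have : 0 < 4 ^ M := by positivity
        omega⟩)).2 hn]
    rw [Finset.sum_congr rfl h, Finset.sum_const, Nat.card_Ico, nsmul_eq_mul,
      Nat.cast_sub (Nat.pow_le_pow_right (by norm_num) (Nat.le_succ M))]
    push_cast
    have : (4 : ℝ) ^ M ≠ 0 := by positivity
    have h4 : (4 : ℝ) ^ M.succ = 4 ^ M * 4 := pow_succ _ _
    rw [h4]
    field_simp
    ring

lemma summable_block {f e : ℕ → ℝ} (hf : ∀ n, 0 ≤ f n) (he : ∀ n, 0 ≤ e n) (hs : Summable e)
    (h : ∀ n, f n ≤ e (Nat.log 4 n) / 4 ^ (Nat.log 4 n)) : Summable f := by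
  refine summable_of_sum_range_le (c := e 0 + 3 * ∑' K, e K) hf fun n => ?_
  have h1 : n ≤ 4 ^ n := (Nat.lt_pow_self (by norm_num)).le
  calc ∑ i ∈ range n, f i ≤ ∑ i ∈ range (4 ^ n), f i :=
        Finset.sum_le_sum_of_subset_of_nonneg (Finset.range_subset_range.2 h1) fun i _ _ => hf i
    _ ≤ ∑ i ∈ range (4 ^ n), e (Nat.log 4 i) / 4 ^ (Nat.log 4 i) :=
        Finset.sum_le_sum fun i _ => h i
    _ = e 0 + 3 * ∑ K ∈ range n, e K := sum_block n
    _ ≤ _ := by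
        have := hs.sum_le_tsum (range n) fun i _ => he i
        linarith

lemma window_aux (s : ℕ) (hs64 : 64 ≤ s) (δ r : ℝ) (hp1 : 0 ≤ δ)
    (hp2 : δ ≤ 2 * Real.pi / (s * s)) (hr0 : 0 ≤ r) (hr1 : r < 2 * Real.pi) :
    ∃ j₁ j₂ : ℕ, j₁ ≤ j₂ ∧ j₂ ≤ 2 * s ∧ (s : ℝ) / 42 ≤ (j₂ : ℝ) - j₁ ∧
      ∀ j : ℕ, j₁ ≤ j → j < j₂ →
        1 / 2 ≤ Real.cos (r + (δ * j + Real.pi * j ^ 2 / (s * s))) := by
  have hπ := Real.pi_pos
  have hsR : (64 : ℝ) ≤ s := by exact_mod_cast hs64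
  have hsR0 : (0 : ℝ) < s := by linarith
  obtain ⟨g, hg⟩ : ∃ g : ℕ → ℝ, ∀ j : ℕ, g j = δ * j + Real.pi * j ^ 2 / (s * s) :=
    ⟨_, fun _ => rfl⟩
  obtain ⟨A, hA⟩ : ∃ A : ℝ, A = 2 * Real.pi - r := ⟨_, rfl⟩
  have hA0 : 0 < A := by rw [hA]; linarith
  have hA1 : A ≤ 2 * Real.pi := by rw [hA]; linarith
  have hgmono : ∀ i j : ℕ, i ≤ j → g i ≤ g j := by
    intro i j hij
    have hij' : (i : ℝ) ≤ j := by exact_mod_cast hij
    rw [hg, hg]
    have h1 : δ * i ≤ δ * j := mul_le_mul_of_nonneg_left hij' hp1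
    have h2 : Real.pi * (i : ℝ) ^ 2 / (s * s) ≤ Real.pi * (j : ℝ) ^ 2 / (s * s) := by
      gcongr
    linarith
  have hg0 : g 0 = 0 := by rw [hg]; simp
  have hgend : A + Real.pi / 3 < g (2 * s) := by
    have h1 : g (2 * s) = δ * (2 * s) + 4 * Real.pi := by
      rw [hg]
      push_cast
      field_simp
      ring
    have h2 : 0 ≤ δ * (2 * s) := by positivity
    rw [h1]
    linarith
  have hex2 : ∃ j, A + Real.pi / 3 < g j := ⟨_, hgend⟩
  have hex1 : ∃ j, A ≤ g j := ⟨2 * s, by linarith⟩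
  classical
  obtain ⟨j₁, hj1⟩ : ∃ j₁, j₁ = Nat.find hex1 := ⟨_, rfl⟩
  obtain ⟨j₂, hj2⟩ : ∃ j₂, j₂ = Nat.find hex2 := ⟨_, rfl⟩
  have hj1s : A ≤ g j₁ := by rw [hj1]; exact Nat.find_spec hex1
  have hj2s : A + Real.pi / 3 < g j₂ := by rw [hj2]; exact Nat.find_spec hex2
  have hj12 : j₁ ≤ j₂ := by rw [hj1]; exact Nat.find_min' hex1 (by linarith)
  have hj2u : j₂ ≤ 2 * s := by rw [hj2]; exact Nat.find_min' hex2 hgend
  have hj1p : 0 < j₁ := by
    rcases Nat.eq_zero_or_pos j₁ with h | h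
    · rw [h, hg0] at hj1s; linarith
    · exact h
  have hj1m : g (j₁ - 1) < A := by
    have := Nat.find_min hex1 (m := j₁ - 1) (by omega)
    exact not_le.1 this
  -- steps
  have hstep : ∀ j : ℕ, j < 2 * s → g (j + 1) - g j ≤ 7 * Real.pi / s := by
    intro j hj
    have hj' : (j : ℝ) + 1 ≤ 2 * s := by exact_mod_cast hj
    have h1 : g (j + 1) - g j = δ + Real.pi * (2 * j + 1) / (s * s) := by
      rw [hg, hg]
      push_cast
      field_simp
      ring
    rw [h1]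
    have h2 : Real.pi * (2 * (j : ℝ) + 1) / (s * s) ≤ Real.pi * (4 * s) / (s * s) := by
      gcongr
      linarith
    have h3 : 2 * Real.pi / ((s : ℝ) * s) + Real.pi * (4 * s) / (s * s) ≤ 7 * Real.pi / s := by
      have e1 : 2 * Real.pi / ((s : ℝ) * s) = (2 / s) * (Real.pi / s) := by
        field_simp
      have e2 : Real.pi * (4 * s) / ((s : ℝ) * s) = 4 * (Real.pi / s) := by
        field_simp
      have e3 : 7 * Real.pi / (s : ℝ) = 7 * (Real.pi / s) := by ring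
      have e4 : (2 : ℝ) / s ≤ 1 := by
        rw [div_le_one hsR0]; linarith
      have e5 : (0 : ℝ) < Real.pi / s := by positivity
      rw [e1, e2, e3]
      have e6 := mul_le_mul_of_nonneg_right e4 e5.le
      linarith
    linarith
  have htel : ∀ d i : ℕ, i + d ≤ 2 * s → g (i + d) - g i ≤ d * (7 * Real.pi / s) := by
    intro d
    induction d with
    | zero => intro i _; simp
    | succ d ih =>
      intro i hi
      have h1 := ih i (by omega)
      have h2 := hstep (i + d) (by omega)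
      rw [← add_assoc]
      push_cast
      linarith
  have hlen : (s : ℝ) / 42 ≤ (j₂ : ℝ) - j₁ := by
    have h1 := htel (j₂ - (j₁ - 1)) (j₁ - 1) (by omega)
    rw [show j₁ - 1 + (j₂ - (j₁ - 1)) = j₂ by omega] at h1
    have h2 : ((j₂ - (j₁ - 1) : ℕ) : ℝ) = (j₂ : ℝ) - j₁ + 1 := by
      rw [Nat.cast_sub (by omega), Nat.cast_sub hj1p]
      push_cast
      ring
    rw [h2] at h1
    have h3 : Real.pi / 3 < ((j₂ : ℝ) - j₁ + 1) * (7 * Real.pi / s) := by linarith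
    rw [mul_div_assoc', lt_div_iff₀ hsR0] at h3
    have h4 : (s : ℝ) / 21 < (j₂ : ℝ) - j₁ + 1 := by
      have h5 : Real.pi * ((s : ℝ) / 21) < Real.pi * ((j₂ : ℝ) - j₁ + 1) := by linarith
      exact lt_of_mul_lt_mul_left h5 hπ.le
    linarith
  refine ⟨j₁, j₂, hj12, hj2u, hlen, fun j hn1 hn2 => ?_⟩
  rw [← hg j]
  have h1 : A ≤ g j := hj1s.trans (hgmono _ _ hn1)
  have h2 : g j ≤ A + Real.pi / 3 := not_lt.1 (Nat.find_min hex2 (m := j) (by omega))
  have h3 : r + g j = (g j - A) + 2 * Real.pi := by rw [hA]; ring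
  rw [h3, Real.cos_add_two_pi, ← Real.cos_pi_div_three]
  exact Real.cos_le_cos_of_nonneg_of_le_pi (by linarith) (by linarith) (by linarith)

lemma stationary (s : ℕ) (hs64 : 64 ≤ s) (x : ℝ) :
    ∃ (m : ℕ) (p : ℤ), s * s ≤ m ∧ m < 2 * (s * s) ∧
      0 ≤ 2 * Real.pi * m / (s * s) + x - 2 * Real.pi * p ∧
      2 * Real.pi * m / (s * s) + x - 2 * Real.pi * p ≤ 2 * Real.pi / (s * s) := by
  have hπ := Real.pi_pos
  have hsR : (64 : ℝ) ≤ s := by exact_mod_cast hs64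
  have hsR0 : (0 : ℝ) < s := by linarith
  obtain ⟨y, hy⟩ : ∃ y : ℝ, y = -x * (s * s) / (2 * Real.pi) := ⟨_, rfl⟩
  have hssZ : (0 : ℤ) < (s : ℤ) * s := by positivity
  have h1 := Int.emod_nonneg ⌈y⌉ hssZ.ne'
  have h2 := Int.emod_lt_of_pos ⌈y⌉ hssZ
  have h3 := Int.emod_add_mul_ediv ⌈y⌉ ((s : ℤ) * s)
  refine ⟨(s * s + (⌈y⌉ % ((s : ℤ) * s))).toNat, 1 - ⌈y⌉ / ((s : ℤ) * s), ?_, ?_, ?_⟩
  · zify
    rw [Int.toNat_of_nonneg (by positivity)]
    linarith
  · zify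
    rw [Int.toNat_of_nonneg (by positivity)]
    linarith
  · have h4 : (((s * s + (⌈y⌉ % ((s : ℤ) * s))).toNat : ℕ) : ℝ) =
        s * s + ((⌈y⌉ % ((s : ℤ) * s) : ℤ) : ℝ) := by
      have : (((s * s + (⌈y⌉ % ((s : ℤ) * s))).toNat : ℕ) : ℤ) =
        s * s + (⌈y⌉ % ((s : ℤ) * s)) := Int.toNat_of_nonneg (by positivity)
      exact_mod_cast this
    have h5 : ((⌈y⌉ % ((s : ℤ) * s) : ℤ) : ℝ) + s * s * ((⌈y⌉ / ((s : ℤ) * s) : ℤ) : ℝ) =
        (⌈y⌉ : ℝ) := by exact_mod_cast h3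
    have h6 : 2 * Real.pi * (((s * s + (⌈y⌉ % ((s : ℤ) * s))).toNat : ℕ) : ℝ) / (s * s) + x -
        2 * Real.pi * ((1 - ⌈y⌉ / ((s : ℤ) * s) : ℤ) : ℝ) =
        2 * Real.pi / (s * s) * ((⌈y⌉ : ℝ) - y) := by
      rw [h4, ← h5, hy]
      push_cast
      field_simp
      ring
    have h7 : (0 : ℝ) < 2 * Real.pi / (s * s) := by positivity
    rw [h6]
    constructor
    · exact mul_nonneg h7.le (sub_nonneg.2 (Int.le_ceil y))
    · have h8 : (⌈y⌉ : ℝ) - y ≤ 1 := by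
        have := Int.ceil_lt_add_one y
        linarith
      exact (mul_le_mul_of_nonneg_left h8 h7.le).trans (by rw [mul_one])

/-- A window of about `2^k` consecutive indices in the block of scale `4^k`, where the phase is
within `π / 3` of a multiple of `2 π`. -/
lemma window (k : ℕ) (hk : 6 ≤ k) (x : ℝ) : ∃ m₁ m₂ : ℕ, 4 ^ k ≤ m₁ ∧ m₁ ≤ m₂ ∧
    m₂ ≤ 3 * 4 ^ k ∧ (2 : ℝ) ^ k / 42 ≤ (m₂ : ℝ) - m₁ ∧
    ∀ n : ℕ, m₁ ≤ n → n < m₂ → 1 / 2 ≤ Real.cos (Real.pi * n ^ 2 / 4 ^ k + n * x) := by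
  have hπ := Real.pi_pos
  obtain ⟨s, hs⟩ : ∃ s : ℕ, s = 2 ^ k := ⟨_, rfl⟩
  have hs64 : 64 ≤ s := by
    rw [hs]
    calc 64 = 2 ^ 6 := by norm_num
      _ ≤ 2 ^ k := Nat.pow_le_pow_right (by norm_num) hk
  have hN : 4 ^ k = s * s := by
    rw [hs, ← mul_pow]
    norm_num
  have hsR : (64 : ℝ) ≤ s := by exact_mod_cast hs64
  have hsR0 : (0 : ℝ) < s := by linarith
  have hNR : (4 : ℝ) ^ k = (s : ℝ) * s := by exact_mod_cast hN
  obtain ⟨m, p, hm1, hm2, hp1, hp2⟩ := stationary s hs64 x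
  obtain ⟨δ, hδ⟩ : ∃ δ : ℝ, δ = 2 * Real.pi * m / (s * s) + x - 2 * Real.pi * p := ⟨_, rfl⟩
  rw [← hδ] at hp1 hp2
  obtain ⟨θ, hθ⟩ : ∃ θ : ℝ, θ = Real.pi * m ^ 2 / (s * s) + m * x := ⟨_, rfl⟩
  obtain ⟨r, hr⟩ : ∃ r : ℝ, r = θ - 2 * Real.pi * ⌊θ / (2 * Real.pi)⌋ := ⟨_, rfl⟩
  have hr0 : 0 ≤ r := by
    have h1 := Int.floor_le (θ / (2 * Real.pi))
    rw [le_div_iff₀ (by positivity)] at h1
    rw [hr]; linarith
  have hr1 : r < 2 * Real.pi := by
    have h1 := Int.lt_floor_add_one (θ / (2 * Real.pi))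
    rw [div_lt_iff₀ (by positivity)] at h1
    rw [hr]; linarith
  obtain ⟨j₁, j₂, h12, h2u, hlen, hw⟩ := window_aux s hs64 δ r hp1 hp2 hr0 hr1
  have h6 : ((2 : ℝ) ^ k) = s := by rw [hs]; push_cast; rfl
  refine ⟨m + j₁, m + j₂, ?_, by omega, ?_, ?_, ?_⟩
  · rw [hN]; omega
  · rw [hN]
    have : 2 * s ≤ s * s := Nat.mul_le_mul_right s (by omega)
    omega
  · rw [h6]
    push_cast
    linarith
  · intro n hn1 hn2
    obtain ⟨j, rfl⟩ : ∃ j, n = m + j := ⟨n - m, by omega⟩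
    have h7 := hw j (by omega) (by omega)
    have h8 : Real.pi * ((m + j : ℕ) : ℝ) ^ 2 / 4 ^ k + ((m + j : ℕ) : ℝ) * x =
        (r + (δ * j + Real.pi * j ^ 2 / (s * s))) +
          ((p * j + ⌊θ / (2 * Real.pi)⌋ : ℤ) : ℝ) * (2 * Real.pi) := by
      push_cast
      rw [hr, hNR]
      have h9 : θ + (δ * j + Real.pi * j ^ 2 / (s * s)) + (p * j : ℝ) * (2 * Real.pi) =
          Real.pi * ((m : ℝ) + j) ^ 2 / (s * s) + ((m : ℝ) + j) * x := by
        rw [hθ, hδ]
        field_simp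
        ring
      rw [← h9]
      ring
    rw [h8, Real.cos_add_int_mul_two_pi]
    exact h7

/-- **There is an everywhere divergent trigonometric series whose coefficients lie in `ℓ^p` for
all `p > 2`**; moreover `∑ (ω |a_n| + ω |b_n|) < ∞` can be reached for any prescribed
`ω ≥ 0` with `ω t = o (t²)` as `t → 0`. -/
theorem result (ω : ℝ → ℝ) (hω0 : ∀ t, 0 ≤ ω t) (hω : ω =o[𝓝 0] fun t : ℝ => t ^ 2) :
    ∃ a b : ℕ → ℝ,
      (∀ ε : ℝ, 0 < ε → Summable fun n : ℕ => |a n| ^ (2 + ε) + |b n| ^ (2 + ε)) ∧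
      (Summable fun n : ℕ => ω |a n| + ω |b n|) ∧
      DivergesEverywhere a b := by
  -- the scales
  have hev : ∀ i : ℕ, ∀ᶠ k : ℕ in atTop, ∀ t : ℝ, |t| ≤ (1 / 2) ^ k → ω t ≤ (1 / 2) ^ i * t ^ 2 := by
    intro i
    have h1 := hω.bound (show (0 : ℝ) < (1 / 2) ^ i by positivity)
    rw [Metric.eventually_nhds_iff] at h1
    obtain ⟨d, hd, h1⟩ := h1
    have h2 := (tendsto_pow_atTop_nhds_zero_of_lt_one (show (0 : ℝ) ≤ 1 / 2 by norm_num)
      (show (1 / 2 : ℝ) < 1 by norm_num)).eventually (gt_mem_nhds hd)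
    filter_upwards [h2] with k hk t ht
    have h3 := h1 (y := t) (by rw [Real.dist_eq, sub_zero]; exact lt_of_le_of_lt ht hk)
    rw [Real.norm_of_nonneg (hω0 t), Real.norm_of_nonneg (sq_nonneg t)] at h3
    exact h3
  obtain ⟨κ, hκ, hκω⟩ := extraction_forall_of_eventually hev
  classical
  set A : ℕ → ℝ := fun n => if Nat.log 4 n ∈ Set.range κ ∧ n < 3 * 4 ^ (Nat.log 4 n) then
    (1 / 2) ^ (Nat.log 4 n) else 0 with hA
  have hA0 : ∀ n, 0 ≤ A n := by
    intro n; simp only [hA]; split_ifs <;> positivity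
  have hA1 : ∀ n, A n ≤ (1 / 2) ^ (Nat.log 4 n) := by
    intro n; simp only [hA]; split_ifs
    · exact le_rfl
    · positivity
  set a : ℕ → ℝ := fun n => A n * Real.cos (Real.pi * n ^ 2 / 4 ^ (Nat.log 4 n)) with ha
  set b : ℕ → ℝ := fun n => -(A n * Real.sin (Real.pi * n ^ 2 / 4 ^ (Nat.log 4 n))) with hb
  have haA : ∀ n, |a n| ≤ A n := by
    intro n
    simp only [ha]
    rw [abs_mul, abs_of_nonneg (hA0 n)]
    exact mul_le_of_le_one_right (hA0 n) (Real.abs_cos_le_one _)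
  have hbA : ∀ n, |b n| ≤ A n := by
    intro n
    simp only [hb]
    rw [abs_neg, abs_mul, abs_of_nonneg (hA0 n)]
    exact mul_le_of_le_one_right (hA0 n) (Real.abs_sin_le_one _)
  have hpow : ∀ n : ℕ, ((1 / 2 : ℝ) ^ n) ^ 2 = 1 / 4 ^ n := by
    intro n
    rw [← pow_mul, mul_comm, pow_mul, show ((1 : ℝ) / 2) ^ 2 = 1 / 4 by norm_num, one_div_pow]
  refine ⟨a, b, fun ε hε => ?_, ?_, ?_⟩
  · -- `ℓ^p`
    have hgeo : Summable fun K : ℕ => ((1 / 2 : ℝ) ^ ε) ^ K :=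
      summable_geometric_of_lt_one (by positivity)
        (Real.rpow_lt_one (by norm_num) (by norm_num) hε)
    have hc : ∀ c : ℕ → ℝ, (∀ n, |c n| ≤ A n) → Summable fun n => |c n| ^ (2 + ε) := by
      intro c hc
      refine summable_block (fun n => by positivity) (fun n => by positivity) hgeo fun n => ?_
      have h1 : |c n| ≤ (1 / 2) ^ (Nat.log 4 n) := (hc n).trans (hA1 n)
      refine (Real.rpow_le_rpow (abs_nonneg _) h1 (by linarith)).trans (le_of_eq ?_)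
      rw [Real.rpow_add (by positivity), Real.rpow_two, hpow, mul_comm, mul_one_div]
      congr 1
      rw [← Real.rpow_natCast, ← Real.rpow_natCast, ← Real.rpow_mul (by norm_num),
        ← Real.rpow_mul (by norm_num), mul_comm]
    exact (hc a haA).add (hc b hbA)
  · -- `ω`
    have hgeo : Summable (Function.extend κ (fun i => (1 / 2 : ℝ) ^ i) 0) := by
      rw [← hκ.injective.summable_iff]
      · have : (Function.extend κ (fun i => (1 / 2 : ℝ) ^ i) 0) ∘ κ = fun i => (1 / 2 : ℝ) ^ i :=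
          funext fun i => hκ.injective.extend_apply _ _ i
        rw [this]
        exact summable_geometric_of_lt_one (by norm_num) (by norm_num)
      · intro K hK
        exact Function.extend_apply' _ _ _ (fun ⟨i, hi⟩ => hK ⟨i, hi⟩)
    have hgeo0 : ∀ K, 0 ≤ Function.extend κ (fun i => (1 / 2 : ℝ) ^ i) 0 K := by
      intro K
      by_cases h : ∃ i, κ i = K
      · obtain ⟨i, rfl⟩ := h
        rw [hκ.injective.extend_apply]; positivity
      · rw [Function.extend_apply' _ _ _ h]; simp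
    have hc : ∀ c : ℕ → ℝ, (∀ n, |c n| ≤ A n) → Summable fun n => ω |c n| := by
      intro c hc
      refine summable_block (fun n => hω0 _) hgeo0 hgeo fun n => ?_
      by_cases h : ∃ i, κ i = Nat.log 4 n
      · obtain ⟨i, hi⟩ := h
        rw [← hi, hκ.injective.extend_apply, hi]
        have h1 : |c n| ≤ (1 / 2) ^ (Nat.log 4 n) := (hc n).trans (hA1 n)
        have h2 := hκω i |c n| (by rw [abs_abs, hi]; exact h1)
        refine h2.trans ?_
        calc (1 / 2 : ℝ) ^ i * |c n| ^ 2 ≤ (1 / 2) ^ i * ((1 / 2) ^ (Nat.log 4 n)) ^ 2 := by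
              gcongr
          _ = (1 / 2) ^ i / 4 ^ (Nat.log 4 n) := by rw [hpow, mul_one_div]
      · rw [Function.extend_apply' _ _ _ h]
        have h1 : A n = 0 := by
          simp only [hA]
          rw [if_neg]
          rintro ⟨⟨i, hi⟩, -⟩
          exact h ⟨i, hi⟩
        have h2 : |c n| = 0 := le_antisymm (h1 ▸ hc n) (abs_nonneg _)
        have h3 := hκω 0 0 (by simp)
        have h4 : ω 0 = 0 := le_antisymm (by simpa using h3) (hω0 0)
        rw [h2, h4]; simp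
    exact (hc a haA).add (hc b hbA)
  · -- divergence
    rintro x ⟨l, hl⟩
    have hC := hl.cauchySeq
    rw [Metric.cauchySeq_iff] at hC
    obtain ⟨M, hM⟩ := hC (1 / 84) (by norm_num)
    -- a large scale
    set i := max 6 M with hi
    have hki : i ≤ κ i := hκ.le_apply
    have hk6 : 6 ≤ κ i := (le_max_left 6 M).trans hki
    have hkM : M ≤ κ i := (le_max_right 6 M).trans hki
    obtain ⟨m₁, m₂, h1, h12, h2, h3, h4⟩ := window (κ i) hk6 x
    have hm1 : M + 1 ≤ m₁ := by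
      have : κ i < 4 ^ (κ i) := Nat.lt_pow_self (by norm_num)
      omega
    have h5 := hM (m₂ - 1) (by omega) (m₁ - 1) (by omega)
    have h6 : partialSum a b x (m₂ - 1) - partialSum a b x (m₁ - 1) =
        ∑ n ∈ Ico m₁ m₂, (a n * Real.cos (n * x) + b n * Real.sin (n * x)) := by
      unfold partialSum
      have e1 : Finset.Icc 1 (m₂ - 1) = Ico 1 m₂ := by
        ext n; simp only [Finset.mem_Icc, Finset.mem_Ico]; omega
      have e2 : Finset.Icc 1 (m₁ - 1) = Ico 1 m₁ := by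
        ext n; simp only [Finset.mem_Icc, Finset.mem_Ico]; omega
      rw [e1, e2, ← Finset.sum_Ico_consecutive _ (by omega : 1 ≤ m₁) h12]
      ring
    have h7 : ∀ n ∈ Ico m₁ m₂, (1 / 2 : ℝ) ^ (κ i) * (1 / 2) ≤
        a n * Real.cos (n * x) + b n * Real.sin (n * x) := by
      intro n hn
      rw [Finset.mem_Ico] at hn
      have hlog : Nat.log 4 n = κ i := by
        refine (Nat.log_eq_iff (Or.inr ⟨by norm_num, by omega⟩)).2 ⟨h1.trans hn.1, ?_⟩
        rw [pow_succ]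
        omega
      have hAn : A n = (1 / 2) ^ (κ i) := by
        simp only [hA]
        rw [if_pos, hlog]
        rw [hlog]
        exact ⟨⟨i, rfl⟩, by omega⟩
      have h8 : a n * Real.cos (n * x) + b n * Real.sin (n * x) =
          (1 / 2) ^ (κ i) * Real.cos (Real.pi * n ^ 2 / 4 ^ (κ i) + n * x) := by
        simp only [ha, hb, hAn, hlog]
        rw [Real.cos_add]
        ring
      rw [h8]
      exact mul_le_mul_of_nonneg_left (h4 n hn.1 hn.2) (by positivity)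
    have h8 := Finset.card_nsmul_le_sum _ _ _ h7
    rw [Nat.card_Ico, nsmul_eq_mul, Nat.cast_sub h12] at h8
    have h9 : (1 / 84 : ℝ) ≤ ((m₂ : ℝ) - m₁) * ((1 / 2) ^ (κ i) * (1 / 2)) := by
      have h10 : (2 : ℝ) ^ (κ i) / 42 * ((1 / 2) ^ (κ i) * (1 / 2)) = 1 / 84 := by
        rw [one_div_pow]
        field_simp
        norm_num
      rw [← h10]
      gcongr
    rw [Real.dist_eq, h6] at h5
    have h10 := lt_of_abs_lt h5
    linarith

end Pool.Agent.Results.MP_85199e_an.EverywhereDivergent
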